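import Pool.Agent.Helper52.SG.Goals

set_option autoImplicit false

namespace Pool.Agent.Helper56.SG.SYLE

open Subgroup Pool.Agent.Helper52.SG

theorem t : Pool.Agent.Helper52.SG.S_SYLE := by
  intro G _ a p M B hBM hB ha
  obtain ⟨S, hBS, hS⟩ := zorn_le_nonempty₀ {S : Subgroup G | B ≤ S ∧ S ≤ M ∧ IsPGroup p S}
    (by
      intro c hc hchain y hy
      have hne : c.Nonempty := ⟨y, hy⟩
      have hdir : DirectedOn (· ≤ ·) c := hchain.directedOn
      refine ⟨sSup c, ⟨?_, ?_, ?_⟩, fun z hz => le_sSup hz⟩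
      · exact (hc hy).1.trans (le_sSup hy)
      · exact sSup_le (fun z hz => (hc hz).2.1)
      · rintro ⟨x, hx⟩
        rw [mem_sSup_of_directedOn hne hdir] at hx
        obtain ⟨z, hz, hxz⟩ := hx
        obtain ⟨k, hk⟩ := (hc hz).2.2 ⟨x, hxz⟩
        refine ⟨k, ?_⟩
        have := congrArg Subtype.val hk
        exact Subtype.ext this) B ⟨le_rfl, hBM, hB⟩
  obtain ⟨⟨h1, h2, h3⟩, hmax⟩ := hS
  exact ⟨S, ⟨h2, h3, ha.mono h1, fun S' h4 h5 h6 => hmax ⟨h1.trans h6, h4, h5⟩ h6⟩, h1⟩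

end Pool.Agent.Helper56.SG.SYLE
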